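import Mathlib
import Pool.Agent.RFX.Refl
import Pool.Agent.RFX.Prod

set_option autoImplicit false

/-!
# The generic compact operator has reflexive ampliations
-/

namespace Pool.Agent.Results.MP_ba59c3_an.GenericCompactReflexive

open Pool.Agent.RFX

/-- Let `H` be a complex Hilbert space. In the Banach space of compact operators on `H` the set of
operators `A` for which `A ⊕ A` and all finite ampliations `A ⊕ ⋯ ⊕ A` are reflexive is residual
(it contains a countable intersection of dense open sets). -/
theorem result {H : Type*} [NormedAddCommGroup H] [InnerProductSpace ℂ H] [CompleteSpace H] :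
    {A : compactOperator (RingHom.id ℂ) H H |
        ReflexiveOp (ContinuousLinearMap.prodMap (A : H →L[ℂ] H) (A : H →L[ℂ] H)) ∧
        ∀ k : ℕ, ReflexiveOp (ampl k (A : H →L[ℂ] H))} ∈
      residual (compactOperator (RingHom.id ℂ) H H) := by
  refine Filter.mem_of_superset residual_reflexive (fun A hA => ⟨reflexive_prod (hA 2), hA⟩)

end Pool.Agent.Results.MP_ba59c3_an.GenericCompactReflexive
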