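import Mathlib
import Pool.Agent.RFX.Comp
import Pool.Agent.RFX.Prod

set_option autoImplicit false

/-!
# Operators all of whose finite ampliations are nonreflexive are norm dense
-/

namespace Pool.Agent.Results.MP_ba59c3_an.NonreflexiveNearEveryOp

open Pool.Agent.RFX

/-- Let `H` be an infinite-dimensional complex Hilbert space, `A` a bounded operator on `H` and
`ε > 0`. There is an operator `B` with `‖B - A‖ < ε`, compact if `A` is compact, such that `B ⊕ B`
is not reflexive; moreover for every `k ≥ 1` there is an operator `C` commuting with `B` such that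
every closed invariant subspace of the `k`-fold sum `B ⊕ ⋯ ⊕ B` is invariant under
`C ⊕ ⋯ ⊕ C`, but `C ⊕ ⋯ ⊕ C` is not a strong limit of polynomials in `B ⊕ ⋯ ⊕ B`. -/
theorem result {H : Type*} [NormedAddCommGroup H] [InnerProductSpace ℂ H] [CompleteSpace H]
    (hinf : ¬ FiniteDimensional ℂ H) (A : H →L[ℂ] H) (ε : ℝ) (hε : 0 < ε) :
    ∃ B : H →L[ℂ] H, ‖B - A‖ < ε ∧ (IsCompactOperator A → IsCompactOperator B) ∧
      ¬ ReflexiveOp (ContinuousLinearMap.prodMap B B) ∧
      ∀ k : ℕ, 1 ≤ k → ∃ C : H →L[ℂ] H, Commute B C ∧ LatLE (ampl k B) (ampl k C) ∧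
        ¬ InW (ampl k B) (ampl k C) := by
  obtain ⟨B, h1, h2, h3⟩ := dense_bad_both hinf A hε
  refine ⟨B, h1, h2, ?_, fun k hk => ?_⟩
  · obtain ⟨C, -, h4, h5⟩ := h3 2
    exact not_reflexive_prod h4 h5
  · obtain ⟨C, h6, h4, h5⟩ := h3 k
    exact ⟨C, h6, h4, fun h => h5 (inW_of_ampl hk h)⟩

end Pool.Agent.Results.MP_ba59c3_an.NonreflexiveNearEveryOp
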